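import Pool.Agent.H818.QC.Base

/-!
# Quadric graphs with bounded numbers of common neighbours: rigid sets
-/

set_option autoImplicit false

namespace Pool.Agent.H818.QC

open SimpleGraph Pool.Agent.Q255.Bridged Pool.Agent.Helper556_sys Pool.Agent.H169Q

variable {V : Type*} {G : SimpleGraph V}

/-- Two different vertices have at most `N` common neighbours. -/
def CoDeg (G : SimpleGraph V) (N : ℕ) : Prop :=
  ∀ u v, u ≠ v → ∀ T : Finset V, (∀ t ∈ T, G.Adj u t ∧ G.Adj v t) → T.card ≤ N

namespace QdL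

/-- Rigid sets of diameter at most two. -/
theorem card_le_two (hG : QdL G) {N : ℕ} (hN : CoDeg G N)
    {o : V} {k n : ℕ} (P : Finset V) (hl : ∀ q ∈ P, G.dist o q = k + 2 * n)
    (hn : 2 ≤ 2 * n)
    (hZ : ∀ p ∈ P, ∀ q ∈ P, G.dist (Z G o k p) (Z G o k q) = G.dist p q)
    (hfZ : ∀ p ∈ P, ∀ q ∈ P, G.dist (fth G o (Z G o k p)) (fth G o (Z G o k q)) = G.dist p q)
    (h2 : ∀ p ∈ P, ∀ q ∈ P, G.dist p q ≤ 2) : P.card ≤ N + 1 := by
  classical
  rcases Nat.lt_or_ge P.card 2 with h | h
  · omega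
  have hne : P.Nonempty := Finset.card_pos.1 (by omega)
  have hinj : ∀ p ∈ P, ∀ q ∈ P, Z G o k p = Z G o k q → p = q := by
    intro p h1 q h2 h
    apply hG.eq_zero
    rw [← hZ p h1 q h2, h, SimpleGraph.dist_self]
  have hinj2 : ∀ p ∈ P, ∀ q ∈ P, fth G o (Z G o k p) = fth G o (Z G o k q) → p = q := by
    intro p h1 q h2 h
    apply hG.eq_zero
    rw [← hfZ p h1 q h2, h, SimpleGraph.dist_self]
  obtain ⟨p0, hp0, hmin⟩ := exists_top (fun p q => lt G o k (Z G o k q) (Z G o k p))
    (fun a b c h1 h2 => lt_trans' h2 h1) (fun a h => lt_irrefl' h) P hne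
  have hlev : ∀ q ∈ P, G.dist o (Z G o k q) = k := by
    intro q hq
    rw [hG.Z_lev (by rw [hl q hq]; omega), hl q hq]
    omega
  -- the level is positive
  have hk : 0 < k := by
    by_contra hk
    have hk0 : k = 0 := by omega
    obtain ⟨p, q, hp, hq, hpq⟩ := Finset.one_lt_card_iff.1 (show 1 < P.card by omega)
    apply hpq
    apply hinj p hp q hq
    have e1 := hG.eq_zero (a := o) (b := Z G o k p) (by rw [hlev p hp, hk0])
    have e2 := hG.eq_zero (a := o) (b := Z G o k q) (by rw [hlev q hq, hk0])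
    rw [← e1, ← e2]
  -- domination
  have hdom : ∀ p ∈ P, ∀ q ∈ P, lt G o k (Z G o k p) (Z G o k q) →
      G.Adj (Z G o k p) (fth G o (Z G o k q)) := by
    intro p hp q hq hlt
    have hne : p ≠ q := by
      rintro rfl
      exact lt_irrefl' hlt
    have hd := h2 p hp q hq
    have hpar := hG.par _ o p q rfl
    have hpos := hG.conn.pos_dist_of_ne hne
    have l1 := hl p hp
    have l2 := hl q hq
    obtain ⟨m, hpm, hm⟩ := hG.step (a := p) (b := q) (by omega)
    have d1 := hG.lev hpm o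
    have hmq : G.Adj m q := by
      have : G.dist m q = 1 := by omega
      exact dist_eq_one_iff_adj.1 this
    exact hG.Z_dom hpm hmq (by omega) (by omega) (by omega) (by omega) hlt
  -- the second smallest point
  have hne' : (P.erase p0).Nonempty := by
    rw [← Finset.card_pos, Finset.card_erase_of_mem hp0]
    omega
  obtain ⟨p1, hp1, hmin1⟩ := exists_top (fun p q => lt G o k (Z G o k q) (Z G o k p))
    (fun a b c h1 h2 => lt_trans' h2 h1) (fun a h => lt_irrefl' h) (P.erase p0) hne'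
  have hp1' := Finset.mem_erase.1 hp1
  have h3 : ∀ q ∈ P.erase p0, G.Adj (Z G o k p0) (fth G o (Z G o k q)) := by
    intro q hq
    have hq' := Finset.mem_erase.1 hq
    rcases lt_tri (G := G) o k (Z G o k p0) (Z G o k q) with h | h | h
    · exact hdom p0 hp0 q hq'.2 h
    · exact absurd (hinj _ hp0 _ hq'.2 h).symm hq'.1
    · exact absurd h (hmin q hq'.2)
  have h4 : ∀ q ∈ P.erase p0, G.Adj (Z G o k p1) (fth G o (Z G o k q)) := by
    intro q hq
    have hq' := Finset.mem_erase.1 hq
    rcases lt_tri (G := G) o k (Z G o k p1) (Z G o k q) with h | h | h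
    · exact hdom p1 hp1'.2 q hq'.2 h
    · rw [h]
      exact (hG.fth_adj (by rw [hlev q hq'.2]; exact hk)).symm
    · exact absurd h (hmin1 q hq)
  have h5 := hN (Z G o k p0) (Z G o k p1)
    (fun h => hp1'.1 (hinj _ hp0 _ hp1'.2 h).symm)
    ((P.erase p0).image fun q => fth G o (Z G o k q)) (by
      intro t ht
      rw [Finset.mem_image] at ht
      obtain ⟨q, hq, rfl⟩ := ht
      exact ⟨h3 q hq, h4 q hq⟩)
  rw [Finset.card_image_of_injOn, Finset.card_erase_of_mem hp0] at h5
  · omega
  · intro p hp q hq h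
    exact hinj2 p (Finset.mem_of_mem_erase hp) q (Finset.mem_of_mem_erase hq) h

theorem dist_phi (hG : QdL G) (o v : V) :
    G.dist v (phi G o v) ≤ 2 := by
  rcases Nat.lt_or_ge (G.dist o v) 2 with h | h
  · rw [Qd.phi_low (by omega), SimpleGraph.dist_comm]
    omega
  · obtain ⟨h1, h2⟩ := hG.phi_spec h
    have h3 := hG.fth_adj (o := o) (v := v) (by omega)
    have h4 := hG.fth_lev o v
    have h5 := hG.one (h2 _ h3 (by omega)).symm
    have h6 := hG.one h3.symm
    have h7 := hG.tri v (fth G o v) (phi G o v)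
    omega

theorem dist_it (hG : QdL G) (o : V) :
    ∀ (j : ℕ) (v : V), G.dist v ((phi G o)^[j] v) ≤ 2 * j := by
  intro j
  induction j with
  | zero => intro v; simp
  | succ j ih =>
    intro v
    rw [Function.iterate_succ_apply]
    have h1 := ih (phi G o v)
    have h2 := hG.dist_phi o v
    have h3 := hG.tri v (phi G o v) ((phi G o)^[j] (phi G o v))
    omega

theorem card_leN (hG : QdL G) {N : ℕ} (hN : CoDeg G N) {o : V} {l R n : ℕ}
    (Q : Finset V) (hl : ∀ q ∈ Q, G.dist o q = l) (hn : R ≤ 2 * n) (hn1 : 1 ≤ n)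
    (ha : ∀ p ∈ Q, ∀ q ∈ Q, G.dist ((phi G o)^[n] p) ((phi G o)^[n] q) = G.dist p q)
    (hb : ∀ p ∈ Q, ∀ q ∈ Q, G.dist (fth G o ((phi G o)^[n] p)) (fth G o ((phi G o)^[n] q)) =
      G.dist p q)
    (hR : ∀ p ∈ Q, ∀ q ∈ Q, G.dist p q ≤ R) :
    Q.card ≤ (N + 1) * (R + 1) := by
  classical
  rcases Q.eq_empty_or_nonempty with rfl | hne
  · simp
  rcases Nat.lt_or_ge l (2 * n) with hln | hln
  · -- everything is mapped to the root
    have h1 : Q.card ≤ 1 := by
      rw [Finset.card_le_one]
      intro p hp q hq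
      apply hG.eq_zero
      have e : ∀ v ∈ Q, (phi G o)^[n] v = o := by
        intro v hv
        have := hG.it_lev o n v
        rw [hl v hv] at this
        exact (hG.eq_zero (by omega)).symm
      rw [← ha p hp q hq, e p hp, e q hq, SimpleGraph.dist_self]
    have h2 : 1 ≤ (N + 1) * (R + 1) := Nat.mul_pos (by omega) (by omega)
    omega
  obtain ⟨k, hk⟩ : ∃ k, l = k + 2 * n := ⟨l - 2 * n, by omega⟩
  have eZ : ∀ q ∈ Q, Z G o k q = (phi G o)^[n] q := by
    intro q hq
    unfold Z
    rw [hl q hq]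
    congr 1
    omega
  have hZ : ∀ p ∈ Q, ∀ q ∈ Q, G.dist (Z G o k p) (Z G o k q) = G.dist p q := by
    intro p hp q hq
    rw [eZ p hp, eZ q hq]
    exact ha p hp q hq
  have hfZ : ∀ p ∈ Q, ∀ q ∈ Q, G.dist (fth G o (Z G o k p)) (fth G o (Z G o k q)) =
      G.dist p q := by
    intro p hp q hq
    rw [eZ p hp, eZ q hq]
    exact hb p hp q hq
  have hinj : ∀ p ∈ Q, ∀ q ∈ Q, Z G o k p = Z G o k q → p = q := by
    intro p h1 q h2 h
    apply hG.eq_zero
    rw [← hZ p h1 q h2, h, SimpleGraph.dist_self]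
  -- the smallest point
  obtain ⟨q1, hq1, hmin⟩ := exists_top (fun p q => lt G o k (Z G o k q) (Z G o k p))
    (fun a b c h1 h2 => lt_trans' h2 h1) (fun a h => lt_irrefl' h) Q hne
  have hmin' : ∀ q ∈ Q, q ≠ q1 → lt G o k (Z G o k q1) (Z G o k q) := by
    intro q hq hne'
    rcases lt_tri (G := G) o k (Z G o k q1) (Z G o k q) with h | h | h
    · exact h
    · exact absurd (hinj _ hq1 _ hq h).symm hne'
    · exact absurd h (hmin q hq)
  -- points at the same distance from the smallest point are close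
  have hclose : ∀ p ∈ Q, ∀ q ∈ Q, G.dist q1 p = G.dist q1 q → G.dist p q ≤ 2 := by
    intro p hpQ q hqQ hd
    wlog hlt : lt G o k (Z G o k p) (Z G o k q) generalizing p q
    · rcases lt_tri (G := G) o k (Z G o k p) (Z G o k q) with h | h | h
      · exact absurd h hlt
      · rw [hinj _ hpQ _ hqQ h, SimpleGraph.dist_self]
        omega
      · rw [SimpleGraph.dist_comm]
        exact this q hqQ p hpQ hd.symm h
    rcases eq_or_ne p q1 with rfl | hp1
    · rw [SimpleGraph.dist_self] at hd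
      omega
    have h1 := hmin' p hpQ hp1
    have h3 := hG.mid (o := o) (a := q1) (b := p) (c := q) (k := k)
      (by have := hR p hpQ q1 hq1; rw [hl p hpQ]; omega)
      (by have := hR p hpQ q hqQ; rw [hl p hpQ]; omega)
      (by rw [hl p hpQ, hl q1 hq1]) (by rw [hl p hpQ, hl q hqQ]) (by rw [hl p hpQ]; omega)
      (hZ p hpQ q1 hq1) (hZ p hpQ q hqQ) (hfZ p hpQ q hqQ) h1 hlt
    omega
  have hmaps : ∀ q ∈ Q, G.dist q1 q ∈ Finset.range (R + 1) := by
    intro q hq
    rw [Finset.mem_range]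
    have := hR q1 hq1 q hq
    omega
  have hcard := Finset.card_le_mul_card_image_of_maps_to hmaps (N + 1) (by
    intro D _
    apply hG.card_le_two hN (o := o) (k := k) (n := n)
    · intro q hq
      rw [Finset.mem_filter] at hq
      rw [hl q hq.1, hk]
    · omega
    · intro p hp q hq
      rw [Finset.mem_filter] at hp hq
      exact hZ p hp.1 q hq.1
    · intro p hp q hq
      rw [Finset.mem_filter] at hp hq
      exact hfZ p hp.1 q hq.1
    · intro p hp q hq
      rw [Finset.mem_filter] at hp hq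
      exact hclose p hp.1 q hq.1 (by rw [hp.2, hq.2]))
  rwa [Finset.card_range] at hcard

/-- The two flows. -/
theorem flows (hG : QdL G) {N : ℕ} (hN : CoDeg G N) (o : V) (R : ℕ) : ∃ (s : ℕ) (a b : V → V), Flows G o (N + 1) R s a b := by
  refine ⟨2 * (R + 1) + 1, (phi G o)^[R + 1], fun v => fth G o ((phi G o)^[R + 1] v), ?_⟩
  refine ⟨hG.it_lip o (R + 1),
    fun u v => (hG.fth_lip o _ _).trans (hG.it_lip o (R + 1) u v), ?_, ?_, ?_, ?_, ?_⟩
  · intro v
    have := hG.dist_it o (R + 1) v
    omega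
  · intro v
    have h1 := hG.dist_it o (R + 1) v
    have h2 := hG.dist_fth o ((phi G o)^[R + 1] v)
    have h3 := hG.tri v ((phi G o)^[R + 1] v) (fth G o ((phi G o)^[R + 1] v))
    show G.dist v (fth G o ((phi G o)^[R + 1] v)) ≤ 2 * (R + 1) + 1
    omega
  · intro p q h
    rw [hG.it_lev, hG.it_lev, h]
  · intro p q h
    show G.dist o (fth G o ((phi G o)^[R + 1] p)) = G.dist o (fth G o ((phi G o)^[R + 1] q))
    rw [hG.fth_lev, hG.fth_lev, hG.it_lev, hG.it_lev, h]
  · intro k Q hk ha hb hR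
    exact hG.card_leN hN Q hk (by omega) (by omega) ha hb hR


end QdL

/-- If the numbers of common neighbours are bounded, then the sets of lower neighbours are
finite. -/
theorem lower_finite {N : ℕ} (hG : Qd G) (hN : CoDeg G N) (o v : V) :
    {z | G.Adj z v ∧ G.dist o z + 1 = G.dist o v}.Finite := by
  classical
  rcases Nat.lt_or_ge (G.dist o v) 2 with h2 | h2
  · refine (Set.finite_singleton o).subset fun z hz => ?_
    have hz' : G.Adj z v ∧ G.dist o z + 1 = G.dist o v := hz
    exact (hG.eq_zero (a := o) (b := z) (by omega)).symm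
  by_contra hinf
  obtain ⟨T, hT1, hT2⟩ := Set.Infinite.exists_subset_card_eq hinf (N + 1)
  have hne : T.Nonempty := Finset.card_pos.1 (by omega)
  obtain ⟨w, hw, _, hw2⟩ := exists_last (G := G) (lev := G.dist o) T hne
  have hT : ∀ z ∈ T, G.Adj z v ∧ G.dist o z + 1 = G.dist o v := fun z hz => hT1 hz
  have hw' := hT w hw
  have lw := hG.fth_lev o w
  have hne2 : v ≠ fth G o w := by
    intro h
    rw [← h] at lw
    omega
  have := hN v (fth G o w) hne2 T fun z hz => by
    have hz' := hT z hz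
    refine ⟨hz'.1.symm, ?_⟩
    rcases lt_tri (G := G) o (G.dist o w) z w with h1 | h1 | h1
    · exact (hG.dom (G.dist o w) z w v (by omega) rfl h1 hz'.1.symm hw'.1.symm
        (by omega)).symm
    · rw [h1]
      exact hG.fth_adj (by omega)
    · exact absurd h1 (hw2 z hz (by omega))
  omega

end Pool.Agent.H818.QC
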