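import Pool.Graph.R_pool_sql_team_seeded_620a6dc7.helper169_quad_.Mach
import Pool.Agent.H818.SY.Ctl

/-!
# Short maps with small rigid sets give almost invariant measures for families of finite sets
-/

set_option autoImplicit false

namespace Pool.Agent.H818.QC

open SimpleGraph Pool.Agent.Helper556_sys Pool.Agent.H169Q Pool.Agent.H818.SY
open Pool.Agent.N313.EX (IsProb n1 n1_eq_sum)

universe v w

variable {V : Type v} {G : SimpleGraph V}

/-- The good case: a polynomial bound. -/
theorem good_card {o : V} {C s : ℕ} {a b : V → V} (hc : G.Connected) {r : ℕ} (h : Flows G o C (2 * r) s a b) {x : V}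
    {B : Finset V} (hB : ∀ q ∈ B, G.dist x q ≤ r) {F : V → V}
    (hF1 : ∀ p q, G.dist (F p) (F q) ≤ G.dist p q)
    (hF2 : ∀ p q, G.dist o p = G.dist o q → G.dist o (F p) = G.dist o (F q))
    (hgood : bd G o a b B F = 0) [DecidableEq V] :
    (B.image F).card ≤ (2 * r + 1) * (C * (2 * r + 1)) := by
  classical
  have h1 : DN G o B (a ∘ F) ≤ DN G o B F := DN_le fun p q => h.la _ _
  have h2 : DN G o B (b ∘ F) ≤ DN G o B F := DN_le fun p q => h.lb _ _
  have h3 : ¬ (DN G o B (a ∘ F) + DN G o B (b ∘ F) < 2 * DN G o B F) := by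
    intro h
    unfold bd at hgood
    rw [if_pos h] at hgood
    norm_num at hgood
  have ha := DN_eq (G := G) (o := o) (B := B) (F := F) (F' := a ∘ F)
    (fun p q => h.la _ _) (by omega)
  have hb := DN_eq (G := G) (o := o) (B := B) (F := F) (F' := b ∘ F)
    (fun p q => h.lb _ _) (by omega)
  let J : Finset ℕ := Finset.Icc (G.dist o x - r) (G.dist o x + r)
  have hJ : J.card ≤ 2 * r + 1 := by
    simp only [J, Nat.card_Icc]
    omega
  have hsub : B.image F ⊆ J.biUnion fun j => (B.filter fun p => G.dist o p = j).image F := by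
    intro w hw
    rw [Finset.mem_image] at hw
    obtain ⟨p, hp, rfl⟩ := hw
    rw [Finset.mem_biUnion]
    refine ⟨G.dist o p, ?_, ?_⟩
    · have h4 := hB p hp
      have h5 := hc.dist_triangle (u := o) (v := x) (w := p)
      have h6 := hc.dist_triangle (u := o) (v := p) (w := x)
      rw [SimpleGraph.dist_comm (u := p) (v := x)] at h6
      simp only [J, Finset.mem_Icc]
      omega
    · rw [Finset.mem_image]
      exact ⟨p, by rw [Finset.mem_filter]; exact ⟨hp, rfl⟩, rfl⟩
  refine (Finset.card_le_card hsub).trans ((Finset.card_biUnion_le_card_mul _ _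
    (C * (2 * r + 1)) ?_).trans (Nat.mul_le_mul_right _ hJ))
  intro j _
  rcases (B.filter fun p => G.dist o p = j).eq_empty_or_nonempty with h | ⟨p0, hp0⟩
  · rw [h]
    simp
  · rw [Finset.mem_filter] at hp0
    refine h.rig (G.dist o (F p0)) _ ?_ ?_ ?_ ?_
    · intro q hq
      rw [Finset.mem_image] at hq
      obtain ⟨p, hp, rfl⟩ := hq
      rw [Finset.mem_filter] at hp
      exact hF2 _ _ (by rw [hp.2, hp0.2])
    · intro p hp q hq
      rw [Finset.mem_image] at hp hq
      obtain ⟨p', hp', rfl⟩ := hp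
      obtain ⟨q', hq', rfl⟩ := hq
      rw [Finset.mem_filter] at hp' hq'
      exact ha p' hp'.1 q' hq'.1 (by rw [hp'.2, hq'.2])
    · intro p hp q hq
      rw [Finset.mem_image] at hp hq
      obtain ⟨p', hp', rfl⟩ := hp
      obtain ⟨q', hq', rfl⟩ := hq
      rw [Finset.mem_filter] at hp' hq'
      exact hb p' hp'.1 q' hq'.1 (by rw [hp'.2, hq'.2])
    · intro p hp q hq
      rw [Finset.mem_image] at hp hq
      obtain ⟨p', hp', rfl⟩ := hp
      obtain ⟨q', hq', rfl⟩ := hq
      rw [Finset.mem_filter] at hp' hq'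
      have h4 := hB p' hp'.1
      have h5 := hB q' hq'.1
      have h6 := hc.dist_triangle (u := p') (v := x) (w := q')
      rw [SimpleGraph.dist_comm (u := p') (v := x)] at h6
      have h7 := hF1 p' q'
      omega

/-- Almost invariant measures for a family of increasing sequences of finite sets. -/
theorem almost_inv (hG : G.Connected) {C : ℕ} (hC : 1 ≤ C) (o : V)
    (hfl : ∀ R : ℕ, ∃ (s : ℕ) (a b : V → V), Flows G o C R s a b)
    {I : Type w} (x : I → V) (B : I → ℕ → Finset V) (D : ℕ) (c : ℕ → ℕ)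
    (h0 : ∀ i, x i ∈ B i 0) (hm : ∀ i k, B i k ⊆ B i (k + 1))
    (hD : ∀ i k, ∀ p ∈ B i k, G.dist (x i) p ≤ D * k) (hc : ∀ i k, (B i k).card ≤ c k)
    {ε : ℝ} (hε : 0 < ε) :
    ∃ S : ℕ, ∃ b : I → V →₀ ℝ, (∀ i, IsProb (b i)) ∧
      (∀ i, ∀ v ∈ (b i).support, G.dist (x i) v ≤ S) ∧
      ∀ i j, (∀ k, B i k ⊆ B j (k + 1)) → (∀ k, B j k ⊆ B i (k + 1)) → n1 (b i - b j) ≤ ε := by
  classical
  obtain ⟨K, hK, hKε⟩ := exists_K' D hC hε
  obtain ⟨s, a, b, hab⟩ := hfl (2 * (D * (K + 1)))
  set c0 : ℝ := 8 / (K : ℝ) *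
    Real.log (((2 * (D * (K + 1)) + 1) * (C * (2 * (D * (K + 1)) + 1)) : ℕ) : ℝ) with hc0
  have hKpos : (0 : ℝ) < K := by exact_mod_cast hK
  have hc0nn : 0 ≤ c0 := by
    have := Real.log_natCast_nonneg ((2 * (D * (K + 1)) + 1) * (C * (2 * (D * (K + 1)) + 1)))
    positivity
  set D0 : ℕ := c (K + 1) * (c (K + 1) * (2 * (D * (K + 1)))) with hD0
  obtain ⟨M0, hM0⟩ := exists_nat_gt (8 * (D0 : ℝ) / ε)
  set M : ℕ := M0 + 1 with hM
  have hMpos : (0 : ℝ) < M := by
    rw [hM]
    positivity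
  have hMD : 8 * (D0 : ℝ) ≤ M * ε := by
    rw [div_lt_iff₀ hε] at hM0
    have : (M : ℝ) = M0 + 1 := by rw [hM]; push_cast; ring
    rw [this]
    nlinarith
  let P : (V → V) → Prop := fun F => (∀ p q, G.dist (F p) (F q) ≤ G.dist p q) ∧
    (∀ p q, G.dist o p = G.dist o q → G.dist o (F p) = G.dist o (F q))
  have hP : ∀ F, P F → P (a ∘ F) ∧ P (b ∘ F) := by
    rintro F ⟨h1, h2⟩
    exact ⟨⟨fun p q => (hab.la _ _).trans (h1 p q), fun p q hpq => hab.ea _ _ (h2 p q hpq)⟩,
      ⟨fun p q => (hab.lb _ _).trans (h1 p q), fun p q hpq => hab.eb _ _ (h2 p q hpq)⟩⟩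
  let Q : ℕ → (V → V) → Prop := fun n F => ∀ p, G.dist p (F p) ≤ s * n
  have hQ : ∀ n F, Q n F → Q (n + 1) (a ∘ F) ∧ Q (n + 1) (b ∘ F) := by
    intro n F h1
    have e : s * (n + 1) = s * n + s := by ring
    refine ⟨fun p => ?_, fun p => ?_⟩
    · show G.dist p (a (F p)) ≤ s * (n + 1)
      have h2 := h1 p
      have h3 := hab.sa (F p)
      have h5 := hG.dist_triangle (u := p) (v := F p) (w := a (F p))
      omega
    · show G.dist p (b (F p)) ≤ s * (n + 1)
      have h2 := h1 p
      have h3 := hab.sb (F p)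
      have h5 := hG.dist_triangle (u := p) (v := F p) (w := b (F p))
      omega
  let A : I → (V → V) → ℕ → Finset V := fun i F k => (B i k).image F
  let g : I → (V → V) → lp (fun _ : V => ℝ) 1 := fun i F => av dl (A i F) K
  have hx : ∀ i k, x i ∈ B i k := by
    intro i k
    induction k with
    | zero => exact h0 i
    | succ k ih => exact hm i k ih
  have hAne : ∀ i F k, (A i F k).Nonempty := by
    intro i F k
    exact Finset.Nonempty.image ⟨x i, hx i k⟩ F
  -- membership
  have hgmem : ∀ i n F, n ≤ M → Q n F → g i F ∈ Sf G (x i) (D * K + s * M) := by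
    intro i n F hn hF
    refine av_mem (Sf_convex (x i) _) hK fun k hk => mu_mem (Sf_convex (x i) _) (hAne i F _) ?_
    intro v hv
    rw [Finset.mem_image] at hv
    obtain ⟨p, hp, rfl⟩ := hv
    apply dl_mem'
    have h1 := hF p
    have h2 := hG.dist_triangle (u := x i) (v := p) (w := F p)
    have h3 : s * n ≤ s * M := Nat.mul_le_mul_left _ hn
    have h4 := hD i _ p hp
    have h5 : D * (k + 1) ≤ D * K := Nat.mul_le_mul_left _ (by omega)
    omega
  let ξ : I → lp (fun _ : V => ℝ) 1 := fun i =>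
    (M : ℝ)⁻¹ • ∑ t ∈ Finset.range M, Ex a b (g i) t id
  have hξ : ∀ i, ξ i ∈ Sf G (x i) (D * K + s * M) := by
    intro i
    show (M : ℝ)⁻¹ • ∑ t ∈ Finset.range M, Ex a b (g i) t id ∈ Sf G (x i) (D * K + s * M)
    rw [Finset.smul_sum]
    refine (Sf_convex (x i) _).sum_mem (fun _ _ => (inv_pos.2 hMpos).le) ?_ fun t ht => ?_
    · rw [Finset.sum_const, nsmul_eq_mul, Finset.card_range, mul_inv_cancel₀ hMpos.ne']
    · rw [Finset.mem_range] at ht
      refine Ex_mem (Sf_convex (x i) _) hQ (m := M) (fun n F hn hF => hgmem i n F hn hF) t 0 id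
        (by omega) ?_
      intro p
      show G.dist p (id p) ≤ s * 0
      simp
  obtain ⟨bb, hb1, hb2, hb3⟩ := to_finsupp ξ hξ
  refine ⟨D * K + s * M, bb, hb1, hb2, fun i j hij hji => ?_⟩
  rw [hb3]
  have hstep : ∀ F, P F → ‖g i F - g j F‖ ≤ c0 + 2 * bd G o a b (B i (K + 1)) F := by
    intro F hF
    by_cases hbad : bd G o a b (B i (K + 1)) F = 0
    · rw [hbad, mul_zero, add_zero]
      have hmono : ∀ k, A i F k ⊆ A i F (k + 1) := fun k =>
        Finset.image_subset_image (hm i k)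
      have h1 := av_sub_le (δ := dl) dl_norm (A := A i F) (B := A j F) hK (hAne i F 0) hmono
        (fun k => Finset.image_subset_image (hij k)) (fun k => Finset.image_subset_image (hji k))
      refine h1.trans ?_
      have h2 := good_card hG hab (hD i (K + 1)) hF.1 hF.2 hbad
      have h3 : (0 : ℝ) < (A i F (K + 1)).card := by
        exact_mod_cast (hAne i F (K + 1)).card_pos
      have h4 : ((A i F (K + 1)).card : ℝ) ≤
          (((2 * (D * (K + 1)) + 1) * (C * (2 * (D * (K + 1)) + 1)) : ℕ) : ℝ) := by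
        exact_mod_cast h2
      have h5 := Real.log_le_log h3 h4
      rw [hc0]
      gcongr
    · have hb1 : bd G o a b (B i (K + 1)) F = 1 := by
        unfold bd at hbad ⊢
        split_ifs at hbad ⊢ with h
        · rfl
        · exact absurd rfl hbad
      have hn : ∀ z, ‖g z F‖ ≤ 1 := by
        intro z
        have hconv := norm_le_one_convex (E := lp (fun _ : V => ℝ) 1)
        exact av_mem hconv hK fun k _ => mu_mem hconv (hAne z F _) fun v _ => dl_norm v
      have h1 := norm_sub_le (g i F) (g j F)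
      have h2 := hn i
      have h3 := hn j
      rw [hb1]
      linarith
  have hPid : P id := ⟨fun p q => le_rfl, fun p q h => h⟩
  have hex : ∀ t, ‖Ex a b (g i) t id - Ex a b (g j) t id‖ ≤
      c0 + 2 * Ex a b (bd G o a b (B i (K + 1))) t id := by
    intro t
    have h1 := Ex_norm_le hP hstep t id hPid
    rwa [Ex_affine] at h1
  have hsum := Ex_sum_le (a := a) (b := b) (bad := bd G o a b (B i (K + 1)))
    (D := fun F => (DN G o (B i (K + 1)) F : ℝ)) (fun F => Nat.cast_nonneg _)
    (fun F => hab.bad_drop _ F) M id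
  have hDN : DN G o (B i (K + 1)) id ≤ D0 := by
    unfold DN
    have hin : ∀ p ∈ B i (K + 1), ∀ q ∈ B i (K + 1),
        (if G.dist o p = G.dist o q then G.dist (id p) (id q) else 0) ≤ 2 * (D * (K + 1)) := by
      intro p hp q hq
      have h1 := hD i _ p hp
      have h2 := hD i _ q hq
      split_ifs
      · have h3 := hG.dist_triangle (u := p) (v := x i) (w := q)
        rw [SimpleGraph.dist_comm (u := p) (v := x i)] at h3
        simp only [id]
        omega
      · omega
    calc (∑ p ∈ B i (K + 1), ∑ q ∈ B i (K + 1),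
          if G.dist o p = G.dist o q then G.dist (id p) (id q) else 0)
        ≤ ∑ p ∈ B i (K + 1), ∑ q ∈ B i (K + 1), 2 * (D * (K + 1)) :=
          Finset.sum_le_sum fun p hp => Finset.sum_le_sum fun q hq => hin p hp q hq
      _ = (B i (K + 1)).card * ((B i (K + 1)).card * (2 * (D * (K + 1)))) := by
          simp [Finset.sum_const]
      _ ≤ D0 := by
          rw [hD0]
          have := hc i (K + 1)
          gcongr
  have hDN' : (DN G o (B i (K + 1)) id : ℝ) ≤ D0 := by exact_mod_cast hDN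
  show ‖(M : ℝ)⁻¹ • ∑ t ∈ Finset.range M, Ex a b (g i) t id -
    (M : ℝ)⁻¹ • ∑ t ∈ Finset.range M, Ex a b (g j) t id‖ ≤ ε
  rw [← smul_sub, ← Finset.sum_sub_distrib, norm_smul, norm_inv, Real.norm_of_nonneg hMpos.le]
  have h1 : ‖∑ t ∈ Finset.range M, (Ex a b (g i) t id - Ex a b (g j) t id)‖ ≤
      M * c0 + 4 * D0 := by
    calc ‖∑ t ∈ Finset.range M, (Ex a b (g i) t id - Ex a b (g j) t id)‖
        ≤ ∑ t ∈ Finset.range M, (c0 + 2 * Ex a b (bd G o a b (B i (K + 1))) t id) :=
          (norm_sum_le _ _).trans (Finset.sum_le_sum fun t _ => hex t)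
      _ = M * c0 + 2 * ∑ t ∈ Finset.range M, Ex a b (bd G o a b (B i (K + 1))) t id := by
          rw [Finset.sum_add_distrib, Finset.sum_const, Finset.card_range, nsmul_eq_mul,
            Finset.mul_sum]
      _ ≤ M * c0 + 4 * D0 := by linarith
  rw [inv_mul_le_iff₀ hMpos]
  refine h1.trans ?_
  nlinarith

end Pool.Agent.H818.QC
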