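import Pool.Graph.R_pool_sql_team_seeded_620a6dc7.helper169_quad_.CountN

/-!
# Quadric graphs with finite sets of lower neighbours, possibly locally infinite

The results of the library on locally finite modular graphs without isometric 6-cycles
(`helper169_quad_`) carry over to locally infinite graphs in which the sets of the neighbours of a
vertex that are closer to a given point are finite. The proofs are those of the library.
-/

set_option autoImplicit false

namespace Pool.Agent.H818.QC

open SimpleGraph Pool.Agent.Q255.Bridged Pool.Agent.Helper556_sys Pool.Agent.H169Q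

variable {V : Type*} {G : SimpleGraph V}

/-- Modular graphs without isometric 6-cycles in which the sets of lower neighbours are finite. -/
structure QdL (G : SimpleGraph V) : Prop extends Qd G where
  fin : ∀ o v, {z | G.Adj z v ∧ G.dist o z + 1 = G.dist o v}.Finite

namespace QdL

theorem phi_spec (hG : QdL G) {o v : V}
    (h : 2 ≤ G.dist o v) : G.dist o (phi G o v) + 2 = G.dist o v ∧
      ∀ z, G.Adj z v → G.dist o z + 1 = G.dist o v → G.Adj (phi G o v) z := by
  have hex : ∃ y, G.dist o y + 2 = G.dist o v ∧
      ∀ z, G.Adj z v → G.dist o z + 1 = G.dist o v → G.Adj y z := by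
    classical
    have hfin : {z | G.Adj z v ∧ G.dist o z + 1 = G.dist o v}.Finite := hG.fin o v
    have hne : hfin.toFinset.Nonempty := by
      refine ⟨fth G o v, ?_⟩
      rw [Set.Finite.mem_toFinset]
      have := hG.fth_lev o v
      exact ⟨hG.fth_adj (by omega), by omega⟩
    obtain ⟨w, hw, _, hw2⟩ := exists_last (G := G) (lev := G.dist o) hfin.toFinset hne
    rw [Set.Finite.mem_toFinset] at hw
    have lw := hG.fth_lev o w
    refine ⟨fth G o w, by have := hw.2; omega, fun z hz1 hz2 => ?_⟩
    rcases lt_tri (G := G) o (G.dist o w) z w with h1 | h1 | h1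
    · exact (hG.dom (G.dist o w) z w v (by have := hw.2; omega) rfl h1 hz1.symm hw.1.symm
        hw.2.symm).symm
    · rw [h1]
      exact hG.fth_adj (by have := hw.2; omega)
    · refine absurd h1 (hw2 z ?_ (by have := hw.2; omega))
      rw [Set.Finite.mem_toFinset]
      exact ⟨hz1, hz2⟩
  unfold phi
  rw [dif_pos hex]
  exact hex.choose_spec

theorem phi_lev (hG : QdL G) (o v : V) :
    G.dist o (phi G o v) = G.dist o v - 2 := by
  rcases Nat.lt_or_ge (G.dist o v) 2 with h | h
  · rw [Qd.phi_low (by omega), SimpleGraph.dist_self]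
    omega
  · have := (hG.phi_spec h).1
    omega

/-- The projection of an upper vertex is adjacent to the lower vertex. -/
theorem phi_up (hG : QdL G) {o u v : V} (h : G.Adj u v)
    (hl : G.dist o u + 1 = G.dist o v) (hu : 1 ≤ G.dist o u) : G.Adj (phi G o v) u :=
  (hG.phi_spec (o := o) (v := v) (by omega)).2 u h hl

theorem phi_hom (hG : QdL G) {o u v : V} (h : G.Adj u v)
    (hl : G.dist o u + 1 = G.dist o v) (hu : 2 ≤ G.dist o u) :
    G.Adj (phi G o u) (phi G o v) := by
  have h1 := hG.phi_up h hl (by omega)
  have h2 := (hG.phi_spec (o := o) (v := v) (by omega)).1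
  exact hG.phi_up h1 (by omega) (by omega)

theorem phi_lip (hG : QdL G) (o u v : V) :
    G.dist (phi G o u) (phi G o v) ≤ G.dist u v := by
  refine hG.lip_of (fun u v h => ?_) u v
  wlog hle : G.dist o u + 1 = G.dist o v generalizing u v
  · rw [SimpleGraph.dist_comm]
    refine this v u h.symm ?_
    rcases hG.lev h o with h1 | h1
    · exact absurd h1 hle
    · exact h1
  rcases Nat.lt_or_ge (G.dist o u) 2 with h0 | h0
  · rcases Nat.lt_or_ge (G.dist o u) 1 with h1 | h1
    · rw [Qd.phi_low (by omega), Qd.phi_low (by omega), SimpleGraph.dist_self]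
      omega
    · have h2 := hG.phi_up h hle h1
      have h3 := hG.phi_lev o v
      rw [← hG.eq_zero (a := o) (b := phi G o v) (by omega), Qd.phi_low (by omega), SimpleGraph.dist_self]
      omega
  · exact (hG.one (hG.phi_hom h hle h0)).le

theorem it_lev (hG : QdL G) (o : V) :
    ∀ (j : ℕ) (v : V), G.dist o ((phi G o)^[j] v) = G.dist o v - 2 * j := by
  intro j
  induction j with
  | zero => intro v; simp
  | succ j ih =>
    intro v
    rw [Function.iterate_succ_apply, ih, hG.phi_lev]
    omega

theorem it_lip (hG : QdL G) (o : V) :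
    ∀ (j : ℕ) (u v : V), G.dist ((phi G o)^[j] u) ((phi G o)^[j] v) ≤ G.dist u v := by
  intro j
  induction j with
  | zero => intro u v; simp
  | succ j ih =>
    intro u v
    rw [Function.iterate_succ_apply, Function.iterate_succ_apply]
    exact (ih _ _).trans (hG.phi_lip o u v)

theorem it_hom (hG : QdL G) {o : V} :
    ∀ (j : ℕ) (u v : V), G.Adj u v → G.dist o u + 1 = G.dist o v → 2 * j ≤ G.dist o u →
      G.Adj ((phi G o)^[j] u) ((phi G o)^[j] v) := by
  intro j
  induction j with
  | zero => intro u v h _ _; exact h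
  | succ j ih =>
    intro u v h hl hj
    rw [Function.iterate_succ_apply, Function.iterate_succ_apply]
    have h1 := hG.phi_lev o u
    have h2 := hG.phi_lev o v
    exact ih _ _ (hG.phi_hom h hl (by omega)) (by omega) (by omega)

theorem it_up (hG : QdL G) {o : V} (j : ℕ) (u v : V)
    (h : G.Adj u v) (hl : G.dist o u + 1 = G.dist o v) (hj : 2 * j + 1 ≤ G.dist o u) :
    G.Adj ((phi G o)^[j + 1] v) ((phi G o)^[j] u) := by
  rw [Function.iterate_succ_apply]
  have h1 := hG.phi_lev o v
  exact hG.it_hom j _ _ (hG.phi_up h hl (by omega)) (by omega) (by omega)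

theorem Z_lev (hG : QdL G) {o v : V} {k : ℕ}
    (h : k ≤ G.dist o v) : G.dist o (Z G o k v) = k + (G.dist o v - k) % 2 := by
  unfold Z
  rw [hG.it_lev]
  omega

theorem Z_hom (hG : QdL G) {o u v : V} {k : ℕ}
    (h : G.Adj u v) (hl : G.dist o u + 1 = G.dist o v) (hk : k ≤ G.dist o u) :
    G.Adj (Z G o k u) (Z G o k v) := by
  unfold Z
  rcases Nat.even_or_odd' (G.dist o u - k) with ⟨i, hi | hi⟩
  · have e1 : (G.dist o u - k) / 2 = i := by omega
    have e2 : (G.dist o v - k) / 2 = i := by omega
    rw [e1, e2]
    exact hG.it_hom i u v h hl (by omega)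
  · have e1 : (G.dist o u - k) / 2 = i := by omega
    have e2 : (G.dist o v - k) / 2 = i + 1 := by omega
    rw [e1, e2]
    exact (hG.it_up i u v h hl (by omega)).symm

theorem Z_adj (hG : QdL G) {o u v : V} {k : ℕ}
    (h : G.Adj u v) (hu : k ≤ G.dist o u) (hv : k ≤ G.dist o v) :
    G.Adj (Z G o k u) (Z G o k v) := by
  rcases hG.lev h o with h1 | h1
  · exact hG.Z_hom h h1 hu
  · exact (hG.Z_hom h.symm h1 hv).symm

theorem Z_lip (hG : QdL G) {o : V} {k : ℕ} :
    ∀ (r : ℕ) (u v : V), G.dist u v = r → k + r ≤ G.dist o u → 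
      G.dist (Z G o k u) (Z G o k v) ≤ r := by
  intro r
  induction r with
  | zero =>
    intro u v h _
    rw [hG.eq_zero h, SimpleGraph.dist_self]
  | succ r ih =>
    intro u v h hk
    obtain ⟨c, h1, h2⟩ := hG.step (a := u) (b := v) (by omega)
    have h3 := hG.lip1 h1 o
    have h4 := ih c v (by omega) (by omega)
    have h5 := hG.one (hG.Z_adj (o := o) (k := k) h1 (by omega) (by omega))
    have h6 := hG.tri (Z G o k u) (Z G o k c) (Z G o k v)
    omega

/-- Isometry on a pair is inherited by points of the geodesics. -/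
theorem Z_sub (hG : QdL G) {o p q u v : V} {k : ℕ}
    (hi : G.dist (Z G o k p) (Z G o k q) = G.dist p q) (hk : k + G.dist p q ≤ G.dist o p)
    (h : G.dist p u + G.dist u v + G.dist v q = G.dist p q) :
    G.dist (Z G o k u) (Z G o k v) = G.dist u v := by
  have h1 := hG.Z_lip (o := o) (k := k) _ p u rfl (by omega)
  have t1 := hG.tri o u p
  have c1 := SimpleGraph.dist_comm (G := G) (u := u) (v := p)
  have h2 := hG.Z_lip (o := o) (k := k) _ u v rfl (by omega)
  have t2 := hG.tri o v u
  have c2 := SimpleGraph.dist_comm (G := G) (u := v) (v := u)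
  have h3 := hG.Z_lip (o := o) (k := k) _ v q rfl (by omega)
  have h4 := hG.tri (Z G o k p) (Z G o k u) (Z G o k q)
  have h5 := hG.tri (Z G o k u) (Z G o k v) (Z G o k q)
  omega

/-- Two points at distance two: the projections have a common upper neighbour. -/
theorem Z_dom (hG : QdL G) {o p m q : V} {k : ℕ}
    (hpm : G.Adj p m) (hmq : G.Adj m q) (hk : k ≤ G.dist o p) (hm : k ≤ G.dist o m)
    (hk' : k ≤ G.dist o q) (hp : (G.dist o p - k) % 2 = 0) (hlt : lt G o k (Z G o k p) (Z G o k q)) :
    G.Adj (Z G o k p) (fth G o (Z G o k q)) := by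
  have h1 := hG.lev hpm o
  have h2 := hG.lev hmq o
  have a1 := hG.Z_adj (o := o) (k := k) hpm (by omega) (by omega)
  have a2 := hG.Z_adj (o := o) (k := k) hmq (by omega) (by omega)
  have l1 := hG.Z_lev (o := o) (v := p) (k := k) (by omega)
  have l2 := hG.Z_lev (o := o) (v := m) (k := k) (by omega)
  have l3 := hG.Z_lev (o := o) (v := q) (k := k) (by omega)
  exact hG.dom (o := o) k _ _ _ (by omega) (by omega) hlt a1.symm a2 (by omega)

/-- The order increases along geodesics once it increases at the first step. -/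
theorem ordA (hG : QdL G) {o : V} {k : ℕ} :
    ∀ (D : ℕ) (p q m u : V), G.dist p q = 2 * D → k + 2 * D ≤ G.dist o p →
      (G.dist o p - k) % 2 = 0 → G.dist (Z G o k p) (Z G o k q) = G.dist p q →
      G.Adj p m → G.Adj m u → G.dist u q + 2 = G.dist p q →
      lt G o k (Z G o k p) (Z G o k u) → lt G o k (Z G o k p) (Z G o k q) := by
  intro D
  induction D with
  | zero =>
    intro p q m u h _ _ _ _ _ hu _
    omega
  | succ D ih =>
    intro p q m u h hk hp hi hpm hmu hu hlt
    have d1 := hG.one hpm
    have d2 := hG.one hmu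
    have t1 := hG.tri p m u
    have t2 := hG.tri p u q
    have t3 := hG.tri p m q
    have t4 := hG.tri m u q
    have l1 := hG.lev hpm o
    have l2 := hG.lev hmu o
    rcases Nat.eq_zero_or_pos D with h0 | h0
    · have : u = q := hG.eq_zero (by omega)
      rw [← this]
      exact hlt
    · obtain ⟨n, hun, hn⟩ := hG.step (a := u) (b := q) (by omega)
      obtain ⟨w, hnw, hw⟩ := hG.step (a := n) (b := q) (by omega)
      have d3 := hG.one hun
      have d4 := hG.one hnw
      have t5 := hG.tri u n w
      have t6 := hG.tri u w q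
      have t7 := hG.tri p u w
      have t8 := hG.tri p w q
      have l3 := hG.lev hun o
      have l4 := hG.lev hnw o
      have i1 : G.dist (Z G o k u) (Z G o k w) = G.dist u w :=
        hG.Z_sub hi (by omega) (by omega)
      have i2 : G.dist (Z G o k p) (Z G o k w) = G.dist p w :=
        hG.Z_sub hi (by omega) (by rw [SimpleGraph.dist_self]; omega)
      have i3 : G.dist (Z G o k u) (Z G o k q) = G.dist u q :=
        hG.Z_sub hi (by omega) (by rw [SimpleGraph.dist_self]; omega)
      have hlt2 : lt G o k (Z G o k u) (Z G o k w) := by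
        rcases lt_tri (G := G) o k (Z G o k u) (Z G o k w) with h1 | h1 | h1
        · exact h1
        · rw [h1, SimpleGraph.dist_self] at i1
          omega
        · exfalso
          have a1 := hG.one (hG.Z_dom hpm hmu (by omega) (by omega) (by omega) hp hlt)
          have a2 := hG.one (hG.Z_dom hnw.symm hun.symm (k := k) (by omega) (by omega)
            (by omega) (by omega) h1)
          have t9 := hG.tri (Z G o k p) (fth G o (Z G o k u)) (Z G o k w)
          rw [SimpleGraph.dist_comm (u := Z G o k w)] at a2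
          omega
      have := ih u q n w (by omega) (by omega) (by omega) i3 hun hnw (by omega) hlt2
      exact lt_trans' hlt this

/-- If the father map is isometric too, then the order increases at the first step once it
increases between the ends. -/
theorem ordB (hG : QdL G) {o : V} {k D : ℕ} {p q m u : V}
    (h : G.dist p q = 2 * D) (hk : k + 2 * D ≤ G.dist o p) (hl : G.dist o p = G.dist o q)
    (hp : (G.dist o p - k) % 2 = 0) (hi : G.dist (Z G o k p) (Z G o k q) = G.dist p q)
    (hi2 : G.dist (fth G o (Z G o k p)) (fth G o (Z G o k q)) = G.dist p q)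
    (hpm : G.Adj p m) (hmu : G.Adj m u) (hu : G.dist u q + 2 = G.dist p q)
    (hlt : lt G o k (Z G o k p) (Z G o k q)) : lt G o k (Z G o k p) (Z G o k u) := by
  have d1 := hG.one hpm
  have d2 := hG.one hmu
  have t1 := hG.tri p m u
  have t2 := hG.tri p u q
  have l1 := hG.lev hpm o
  have l2 := hG.lev hmu o
  have i1 : G.dist (Z G o k p) (Z G o k u) = G.dist p u :=
    hG.Z_sub hi (by omega) (by rw [SimpleGraph.dist_self]; omega)
  rcases lt_tri (G := G) o k (Z G o k p) (Z G o k u) with h1 | h1 | h1
  · exact h1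
  · rw [h1, SimpleGraph.dist_self] at i1
    omega
  exfalso
  rcases Nat.eq_zero_or_pos (G.dist u q) with h0 | h0
  · rw [hG.eq_zero h0] at h1
    exact lt_asymm' hlt h1
  have c1 := SimpleGraph.dist_comm (G := G) (u := q) (v := u)
  have c2 := SimpleGraph.dist_comm (G := G) (u := q) (v := p)
  obtain ⟨n, hqn, hn⟩ := hG.step (a := q) (b := u) (by omega)
  obtain ⟨w, hnw, hw⟩ := hG.step (a := n) (b := u) (by omega)
  have d3 := hG.one hqn
  have d4 := hG.one hnw
  have t5 := hG.tri q n w
  have t6 := hG.tri q w u
  have t7 := hG.tri w u p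
  have t8 := hG.tri q w p
  have l3 := hG.lev hqn o
  have l4 := hG.lev hnw o
  have c3 := SimpleGraph.dist_comm (G := G) (u := w) (v := u)
  have c4 := SimpleGraph.dist_comm (G := G) (u := w) (v := p)
  have c5 := SimpleGraph.dist_comm (G := G) (u := w) (v := q)
  have c6 := SimpleGraph.dist_comm (G := G) (u := u) (v := p)
  have i2 : G.dist (Z G o k w) (Z G o k q) = G.dist w q :=
    hG.Z_sub hi (by omega) (by rw [SimpleGraph.dist_self]; omega)
  have i3 : G.dist (Z G o k u) (Z G o k w) = G.dist u w :=
    hG.Z_sub hi (by omega) (by omega)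
  have hqw : lt G o k (Z G o k w) (Z G o k q) := by
    rcases lt_tri (G := G) o k (Z G o k w) (Z G o k q) with h2 | h2 | h2
    · exact h2
    · rw [h2, SimpleGraph.dist_self] at i2
      omega
    · exfalso
      have := hG.ordA D q p n w (by omega) (by omega) (by omega)
        (by rw [SimpleGraph.dist_comm, hi, SimpleGraph.dist_comm]) hqn hnw (by omega) h2
      exact lt_asymm' hlt this
  have a1 := hG.one (hG.Z_dom hmu.symm hpm.symm (k := k) (by omega) (by omega)
    (by omega) (by omega) h1)
  have a2 := hG.one (hG.Z_dom hnw.symm hqn.symm (k := k) (by omega) (by omega)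
    (by omega) (by omega) hqw)
  rw [SimpleGraph.dist_comm] at a1
  have s1 := hG.tri (fth G o (Z G o k p)) (Z G o k u) (fth G o (Z G o k q))
  have s2 := hG.tri (Z G o k u) (Z G o k w) (fth G o (Z G o k q))
  omega

/-- The middle one of three points is almost between the other two. -/
theorem mid (hG : QdL G) {o a b c : V} {k : ℕ}
    (hk : k + G.dist b a ≤ G.dist o b) (hk' : k + G.dist b c ≤ G.dist o b)
    (hla : G.dist o b = G.dist o a) (hlc : G.dist o b = G.dist o c)
    (hp : (G.dist o b - k) % 2 = 0) (ha : G.dist (Z G o k b) (Z G o k a) = G.dist b a)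
    (hc : G.dist (Z G o k b) (Z G o k c) = G.dist b c)
    (hc2 : G.dist (fth G o (Z G o k b)) (fth G o (Z G o k c)) = G.dist b c)
    (h1 : lt G o k (Z G o k a) (Z G o k b)) (h2 : lt G o k (Z G o k b) (Z G o k c)) :
    G.dist a b + G.dist b c ≤ G.dist a c + 2 := by
  by_contra hcon
  obtain ⟨m, u, hbm, hmu, hu1, hu2⟩ := hG.down2 (a := a) (b := b) (c := c) (by omega)
  have c1 := SimpleGraph.dist_comm (G := G) (u := a) (v := b)
  have c2 := SimpleGraph.dist_comm (G := G) (u := a) (v := u)
  have p1 := hG.par _ o b a rfl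
  have p2 := hG.par _ o b c rfl
  obtain ⟨D, hD⟩ : ∃ D, G.dist b a = 2 * D := ⟨G.dist b a / 2, by omega⟩
  obtain ⟨D', hD'⟩ : ∃ D, G.dist b c = 2 * D := ⟨G.dist b c / 2, by omega⟩
  have h3 := hG.ordB hD' (by omega) hlc hp hc hc2 hbm hmu hu2 h2
  have h4 := hG.ordA D b a m u hD (by omega) hp ha hbm hmu (by omega) h3
  exact lt_asymm' h1 h4


end QdL

end Pool.Agent.H818.QC
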